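import Pool.Agent.H65.CRG.TL

/-!
Module QI: the polynomial of Levinson's method and its coefficients.
-/

set_option autoImplicit false

namespace Pool.Agent.H54.CRG

open Pool.Agent.H65.CRG Finset

theorem pow_half (N j : ℕ) (hj : j < N) (v : ℝ) :
    (1 / 2 - v) ^ (2 * j + 1) = ∑ i ∈ range (2 * N + 1),
      ((2 * j + 1).choose i * (1 / 2 : ℝ) ^ (2 * j + 1 - i)) * (-v) ^ i := by
  have h0 : (1 / 2 - v) = (-v) + 1 / 2 := by ring
  rw [h0, add_pow]
  have h1 : range (2 * j + 1 + 1) ⊆ range (2 * N + 1) := by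
    intro x hx
    rw [mem_range] at hx ⊢
    omega
  rw [← sum_subset h1]
  · exact sum_congr rfl fun i _ => by ring
  · intro x _ hx
    rw [mem_range, not_lt] at hx
    rw [Nat.choose_eq_zero_of_lt (by omega)]
    simp

theorem qm_zero (N : ℕ) (m : ℕ → ℝ) (h : 0 < 1 + pm N m (1 / 2)) : qm N m 0 = 1 := by
  unfold qm
  rw [div_eq_one_iff_eq h.ne']
  simp [pm]

theorem Qm_zero (N : ℕ) (m : ℕ → ℝ) (h : 0 < 1 + pm N m (1 / 2)) : Qm N m 0 = 1 := by
  unfold Qm
  rw [sub_zero, div_self h.ne']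

theorem Qm_sum (N : ℕ) (m : ℕ → ℝ) (v : ℝ) :
    Qm N m v = ∑ i ∈ range (2 * N + 1), qm N m i * (-v) ^ i := by
  have h1 : pm N m (1 / 2 - v) = ∑ i ∈ range (2 * N + 1), (∑ j ∈ range N,
      m j * ((2 * j + 1).choose i * (1 / 2 : ℝ) ^ (2 * j + 1 - i))) * (-v) ^ i := by
    unfold pm
    have h2 : ∀ j ∈ range N, m j * (1 / 2 - v) ^ (2 * j + 1) = ∑ i ∈ range (2 * N + 1),
        m j * ((2 * j + 1).choose i * (1 / 2 : ℝ) ^ (2 * j + 1 - i)) * (-v) ^ i := by
      intro j hj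
      rw [pow_half N j (mem_range.1 hj) v, mul_sum]
      exact sum_congr rfl fun i _ => by ring
    rw [sum_congr rfl h2, sum_comm]
    exact sum_congr rfl fun i _ => by rw [sum_mul]
  have h3 : (1 : ℝ) = ∑ i ∈ range (2 * N + 1), (if i = 0 then (1 : ℝ) else 0) * (-v) ^ i := by
    rw [sum_eq_single 0]
    · simp
    · intro i _ hi
      simp [hi]
    · intro h
      exact absurd (mem_range.2 (by omega)) h
  unfold Qm
  rw [h1]
  nth_rewrite 1 [h3]
  rw [← sum_add_distrib, sum_div]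
  refine sum_congr rfl fun i _ => ?_
  unfold qm
  ring

theorem pm_cont (N : ℕ) (m : ℕ → ℝ) : ContDiff ℝ 1 (fun v : ℝ => pm N m (1 / 2 - v)) := by
  unfold pm
  exact ContDiff.sum fun j _ => contDiff_const.mul ((contDiff_const.sub contDiff_id).pow _)

theorem Qm_cont (N : ℕ) (m : ℕ → ℝ) : ContDiff ℝ 1 (Qm N m) := by
  have h : Qm N m = fun v : ℝ => (1 + pm N m (1 / 2 - v)) / (1 + pm N m (1 / 2)) := rfl
  rw [h]
  exact (contDiff_const.add (pm_cont N m)).div_const _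

theorem pf_QI : T_QI := by
  intro N m h
  refine ⟨qm_zero N m h, Qm_zero N m h, Qm_sum N m, Qm_cont N m, fun R => ?_⟩
  have h1 : gQ N m R = fun v : ℝ => Real.exp (R * v) * Qm N m v := rfl
  rw [h1]
  exact (Real.contDiff_exp.comp (contDiff_const.mul contDiff_id)).mul (Qm_cont N m)

end Pool.Agent.H54.CRG
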